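import Mathlib

open Finset

namespace W2helper57.TG

/-- number of levels `t < n` with multiplicity more than `b` -/
def Lc (n : ℕ) (w : ℕ → ℕ) (b : ℕ) : ℕ := ((range n).filter (fun t => b < w t)).card

lemma shift_count (w : ℕ → ℕ) (n c s b : ℕ) (g : ℕ → ℕ) (hinj : Set.InjOn g (range s : Set ℕ))
    (hg : ∀ e < s, c ≤ g e ∧ g e < n) (hcn : c ≤ n) (hc : ∀ t < c, b < w t) :
    ((range s).filter (fun e => b < w (g e))).card + c ≤ Lc n w b := by
  classical
  have h1 : (((range s).filter (fun e => b < w (g e))).image g).card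
      = ((range s).filter (fun e => b < w (g e))).card := by
    apply Finset.card_image_of_injOn
    intro x hx y hy hxy
    apply hinj _ _ hxy
    · exact_mod_cast (Finset.mem_filter.mp hx).1
    · exact_mod_cast (Finset.mem_filter.mp hy).1
  have hd : Disjoint (((range s).filter (fun e => b < w (g e))).image g) (range c) := by
    apply Finset.disjoint_left.mpr
    intro x hx hx'
    obtain ⟨e, he, rfl⟩ := Finset.mem_image.mp hx
    have := hg e (Finset.mem_range.mp (Finset.mem_filter.mp he).1)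
    have := Finset.mem_range.mp hx'
    omega
  have h2 : (((range s).filter (fun e => b < w (g e))).image g) ∪ range c
      ⊆ (range n).filter (fun t => b < w t) := by
    intro x hx
    rcases Finset.mem_union.mp hx with hx | hx
    · obtain ⟨e, he, rfl⟩ := Finset.mem_image.mp hx
      have h := Finset.mem_filter.mp he
      exact Finset.mem_filter.mpr ⟨Finset.mem_range.mpr (hg e (Finset.mem_range.mp h.1)).2, h.2⟩
    · have h := Finset.mem_range.mp hx
      exact Finset.mem_filter.mpr ⟨Finset.mem_range.mpr (by omega), hc x h⟩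
  have h3 := Finset.card_le_card h2
  rw [Finset.card_union_of_disjoint hd, h1, card_range] at h3
  exact h3

/-- pairs `(b, b')` with `b + b' + ji + 1 = K`, `b ≤ j`, `b' ≤ j'` -/
def J (K ji j j' : ℕ) : Finset (ℕ × ℕ) :=
  ((range (j + 1)) ×ˢ (range (j' + 1))).filter (fun p => p.1 + p.2 + ji + 1 = K)

lemma side_count (K ji j j' n c c' s : ℕ) (w w' need : ℕ → ℕ)
    (hcn : c ≤ n) (hcn' : c' ≤ n) (hcs : c + s < n) (hcs' : c' + s ≤ n)
    (hc : ∀ t < c, j < w t) (hc' : ∀ t < c', j' < w' t)
    (hneed : ∀ e < s, K ≤ ji + w (c + (s - e)) + w' (c' + e) + need e) :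
    ∑ p ∈ J K ji j j', ((s : ℤ) + c + c' - Lc n w p.1 - Lc n w' p.2)
      ≤ ((∑ e ∈ range s, need e : ℕ) : ℤ) := by
  classical
  have h1 : ∑ e ∈ range s, ∑ p ∈ J K ji j j',
      (if w (c + (s - e)) ≤ p.1 ∧ w' (c' + e) ≤ p.2 then 1 else 0) ≤ ∑ e ∈ range s, need e := by
    apply Finset.sum_le_sum
    intro e he
    rw [← Finset.card_filter]
    have hn := hneed e (Finset.mem_range.mp he)
    have : ((J K ji j j').filter
        (fun p => w (c + (s - e)) ≤ p.1 ∧ w' (c' + e) ≤ p.2)).card
        ≤ (Finset.Ico (w (c + (s - e))) (K - ji - w' (c' + e))).card := by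
      apply Finset.card_le_card_of_injOn (fun p => p.1)
      · intro p hp
        have hp' := Finset.mem_filter.mp hp
        have hJ := (Finset.mem_filter.mp hp'.1).2
        simp only [coe_Ico, Set.mem_Ico]
        omega
      · intro p hp q hq hpq
        have hp' := (Finset.mem_filter.mp (Finset.mem_filter.mp hp).1).2
        have hq' := (Finset.mem_filter.mp (Finset.mem_filter.mp hq).1).2
        simp only at hpq
        apply Prod.ext hpq
        omega
    rw [Nat.card_Ico] at this
    omega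
  rw [Finset.sum_comm] at h1
  have h2 : ∀ p ∈ J K ji j j', ((s : ℤ) + c + c' - Lc n w p.1 - Lc n w' p.2)
      ≤ ((∑ e ∈ range s, (if w (c + (s - e)) ≤ p.1 ∧ w' (c' + e) ≤ p.2 then 1 else 0) : ℕ) : ℤ) := by
    intro p hp
    rw [← Finset.card_filter]
    have hpm := Finset.mem_filter.mp hp
    have hpr := Finset.mem_product.mp hpm.1
    have hp1 := Finset.mem_range.mp hpr.1
    have hp2 := Finset.mem_range.mp hpr.2
    have a1 := shift_count w n c s p.1 (fun e => c + (s - e))
      (by
        intro x hx y hy hxy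
        have hx' := Finset.mem_range.mp (by exact_mod_cast hx : x ∈ range s)
        have hy' := Finset.mem_range.mp (by exact_mod_cast hy : y ∈ range s)
        simp only at hxy
        omega)
      (by intro e he; constructor <;> omega) hcn
      (by intro t ht; have := hc t ht; omega)
    have a2 := shift_count w' n c' s p.2 (fun e => c' + e)
      (by
        intro x hx y hy hxy
        simp only at hxy
        omega)
      (by intro e he; constructor <;> omega) hcn'
      (by intro t ht; have := hc' t ht; omega)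
    have a3 : (range s).card ≤
        ((range s).filter (fun e => w (c + (s - e)) ≤ p.1 ∧ w' (c' + e) ≤ p.2)).card
        + ((range s).filter (fun e => p.1 < w (c + (s - e)))).card
        + ((range s).filter (fun e => p.2 < w' (c' + e))).card := by
      have hsub : range s ⊆
          ((range s).filter (fun e => w (c + (s - e)) ≤ p.1 ∧ w' (c' + e) ≤ p.2))
          ∪ ((range s).filter (fun e => p.1 < w (c + (s - e))))
          ∪ ((range s).filter (fun e => p.2 < w' (c' + e))) := by
        intro e he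
        simp only [Finset.mem_union, Finset.mem_filter]
        by_cases x1 : p.1 < w (c + (s - e))
        · exact Or.inl (Or.inr ⟨he, x1⟩)
        · by_cases x2 : p.2 < w' (c' + e)
          · exact Or.inr ⟨he, x2⟩
          · exact Or.inl (Or.inl ⟨he, by omega, by omega⟩)
      calc _ ≤ _ := Finset.card_le_card hsub
        _ ≤ _ := Finset.card_union_le _ _
        _ ≤ _ := by
          have := Finset.card_union_le
            ((range s).filter (fun e => w (c + (s - e)) ≤ p.1 ∧ w' (c' + e) ≤ p.2))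
            ((range s).filter (fun e => p.1 < w (c + (s - e))))
          omega
    rw [card_range] at a3
    omega
  calc _ ≤ ∑ p ∈ J K ji j j',
      ((∑ e ∈ range s, (if w (c + (s - e)) ≤ p.1 ∧ w' (c' + e) ≤ p.2 then 1 else 0) : ℕ) : ℤ) :=
        Finset.sum_le_sum h2
    _ = ((∑ p ∈ J K ji j j', ∑ e ∈ range s,
        (if w (c + (s - e)) ≤ p.1 ∧ w' (c' + e) ≤ p.2 then 1 else 0) : ℕ) : ℤ) := by
        push_cast; rfl
    _ ≤ _ := by exact_mod_cast h1

lemma exists_c (w : ℕ → ℕ) (n j : ℕ) :
    ∃ c, c ≤ n ∧ (∀ t < c, j < w t) ∧ (c < n → w c ≤ j) ∧ ∀ b ≤ j, c ≤ Lc n w b := by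
  classical
  have hex : ∃ t, w t ≤ j ∨ n ≤ t := ⟨n, Or.inr le_rfl⟩
  refine ⟨Nat.find hex, Nat.find_min' hex (Or.inr le_rfl), ?_, ?_, ?_⟩
  · intro t ht
    have := Nat.find_min hex ht
    push Not at this
    exact this.1
  · intro h
    rcases Nat.find_spec hex with h1 | h1
    · exact h1
    · omega
  · intro b hb
    have hsub : range (Nat.find hex) ⊆ (range n).filter (fun t => b < w t) := by
      intro t ht
      have ht' := Finset.mem_range.mp ht
      have := Nat.find_min hex ht'
      push Not at this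
      exact Finset.mem_filter.mpr ⟨Finset.mem_range.mpr this.2, by omega⟩
    have := Finset.card_le_card hsub
    rwa [card_range] at this

/-- The inequality of the triangle `j = (j0, j1, j2)`. -/
lemma tri {ι : Type} (R : Finset ι) (P : ℕ → ℕ → ℕ → ι → Prop) (K n : ℕ) (w0 w1 w2 : ℕ → ℕ)
    [∀ x y z, DecidablePred (P x y z)]
    (hcov : ∀ x y z, x + y + z + 1 = n →
      K ≤ w0 x + w1 y + w2 z + (R.filter (fun i => P x y z i)).card)
    (hG : ∀ i ∈ R, ∀ c0 c1 c2 s, c0 + c1 + c2 + s + 1 = n →
      ((range s).filter (fun e => P c0 (c1 + (s - e)) (c2 + e) i)).card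
      + ((range s).filter (fun e => P (c0 + e) c1 (c2 + (s - e)) i)).card
      + ((range s).filter (fun e => P (c0 + (s - e)) (c1 + e) c2 i)).card ≤ 2)
    (j0 j1 j2 : ℕ) :
    ∑ p ∈ J K j0 j1 j2, ((n : ℤ) - 1 - Lc n w0 j0 - Lc n w1 p.1 - Lc n w2 p.2)
    + ∑ p ∈ J K j1 j2 j0, ((n : ℤ) - 1 - Lc n w1 j1 - Lc n w2 p.1 - Lc n w0 p.2)
    + ∑ p ∈ J K j2 j0 j1, ((n : ℤ) - 1 - Lc n w2 j2 - Lc n w0 p.1 - Lc n w1 p.2)
      ≤ 2 * (R.card : ℤ) := by
  classical
  obtain ⟨c0, h0n, h0, h0', h0L⟩ := exists_c w0 n j0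
  obtain ⟨c1, h1n, h1, h1', h1L⟩ := exists_c w1 n j1
  obtain ⟨c2, h2n, h2, h2', h2L⟩ := exists_c w2 n j2
  have memJ : ∀ {ji j j' : ℕ} {p : ℕ × ℕ}, p ∈ J K ji j j' → p.1 ≤ j ∧ p.2 ≤ j' := by
    intro ji j j' p hp
    have hpr := Finset.mem_product.mp (Finset.mem_filter.mp hp).1
    have hp1 := Finset.mem_range.mp hpr.1
    have hp2 := Finset.mem_range.mp hpr.2
    omega
  by_cases hs : n ≤ c0 + c1 + c2 + 1
  · have e0 : ∑ p ∈ J K j0 j1 j2, ((n : ℤ) - 1 - Lc n w0 j0 - Lc n w1 p.1 - Lc n w2 p.2) ≤ 0 := by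
      apply Finset.sum_nonpos
      intro p hp
      have := memJ hp
      have a0 := h0L j0 le_rfl
      have a1 := h1L p.1 this.1
      have a2 := h2L p.2 this.2
      omega
    have e1 : ∑ p ∈ J K j1 j2 j0, ((n : ℤ) - 1 - Lc n w1 j1 - Lc n w2 p.1 - Lc n w0 p.2) ≤ 0 := by
      apply Finset.sum_nonpos
      intro p hp
      have := memJ hp
      have a0 := h1L j1 le_rfl
      have a1 := h2L p.1 this.1
      have a2 := h0L p.2 this.2
      omega
    have e2 : ∑ p ∈ J K j2 j0 j1, ((n : ℤ) - 1 - Lc n w2 j2 - Lc n w0 p.1 - Lc n w1 p.2) ≤ 0 := by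
      apply Finset.sum_nonpos
      intro p hp
      have := memJ hp
      have a0 := h2L j2 le_rfl
      have a1 := h0L p.1 this.1
      have a2 := h1L p.2 this.2
      omega
    have : (0 : ℤ) ≤ 2 * (R.card : ℤ) := by positivity
    omega
  · push Not at hs
    obtain ⟨s, hs'⟩ : ∃ s, c0 + c1 + c2 + s + 1 = n := ⟨n - 1 - (c0 + c1 + c2), by omega⟩
    have w0c := h0' (by omega)
    have w1c := h1' (by omega)
    have w2c := h2' (by omega)
    have s0 := side_count K j0 j1 j2 n c1 c2 s w1 w2
      (fun e => (R.filter (fun i => P c0 (c1 + (s - e)) (c2 + e) i)).card)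
      h1n h2n (by omega) (by omega) h1 h2
      (by
        intro e he
        have := hcov c0 (c1 + (s - e)) (c2 + e) (by omega)
        omega)
    have s1 := side_count K j1 j2 j0 n c2 c0 s w2 w0
      (fun e => (R.filter (fun i => P (c0 + e) c1 (c2 + (s - e)) i)).card)
      h2n h0n (by omega) (by omega) h2 h0
      (by
        intro e he
        have := hcov (c0 + e) c1 (c2 + (s - e)) (by omega)
        omega)
    have s2 := side_count K j2 j0 j1 n c0 c1 s w0 w1
      (fun e => (R.filter (fun i => P (c0 + (s - e)) (c1 + e) c2 i)).card)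
      h0n h1n (by omega) (by omega) h0 h1
      (by
        intro e he
        have := hcov (c0 + (s - e)) (c1 + e) c2 (by omega)
        omega)
    have tot : ∑ e ∈ range s, (R.filter (fun i => P c0 (c1 + (s - e)) (c2 + e) i)).card
        + ∑ e ∈ range s, (R.filter (fun i => P (c0 + e) c1 (c2 + (s - e)) i)).card
        + ∑ e ∈ range s, (R.filter (fun i => P (c0 + (s - e)) (c1 + e) c2 i)).card
        ≤ 2 * R.card := by
      simp only [Finset.card_filter]
      rw [Finset.sum_comm, Finset.sum_comm (s := range s) (t := R)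
        (f := fun e i => if P (c0 + e) c1 (c2 + (s - e)) i then 1 else 0),
        Finset.sum_comm (s := range s) (t := R)
        (f := fun e i => if P (c0 + (s - e)) (c1 + e) c2 i then 1 else 0),
        ← Finset.sum_add_distrib, ← Finset.sum_add_distrib]
      calc _ ≤ ∑ i ∈ R, 2 := by
            apply Finset.sum_le_sum
            intro i hi
            have := hG i hi c0 c1 c2 s hs'
            simpa only [Finset.card_filter] using this
        _ = 2 * R.card := by simp [mul_comm]
    have t0 : ∑ p ∈ J K j0 j1 j2, ((n : ℤ) - 1 - Lc n w0 j0 - Lc n w1 p.1 - Lc n w2 p.2)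
        ≤ ∑ p ∈ J K j0 j1 j2, ((s : ℤ) + c1 + c2 - Lc n w1 p.1 - Lc n w2 p.2) := by
      apply Finset.sum_le_sum
      intro p _
      have := h0L j0 le_rfl
      omega
    have t1 : ∑ p ∈ J K j1 j2 j0, ((n : ℤ) - 1 - Lc n w1 j1 - Lc n w2 p.1 - Lc n w0 p.2)
        ≤ ∑ p ∈ J K j1 j2 j0, ((s : ℤ) + c2 + c0 - Lc n w2 p.1 - Lc n w0 p.2) := by
      apply Finset.sum_le_sum
      intro p _
      have := h1L j1 le_rfl
      omega
    have t2 : ∑ p ∈ J K j2 j0 j1, ((n : ℤ) - 1 - Lc n w2 j2 - Lc n w0 p.1 - Lc n w1 p.2)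
        ≤ ∑ p ∈ J K j2 j0 j1, ((s : ℤ) + c0 + c1 - Lc n w0 p.1 - Lc n w1 p.2) := by
      apply Finset.sum_le_sum
      intro p _
      have := h2L j2 le_rfl
      omega
    have totZ : ((∑ e ∈ range s, (R.filter (fun i => P c0 (c1 + (s - e)) (c2 + e) i)).card : ℕ) : ℤ)
        + ((∑ e ∈ range s, (R.filter (fun i => P (c0 + e) c1 (c2 + (s - e)) i)).card : ℕ) : ℤ)
        + ((∑ e ∈ range s, (R.filter (fun i => P (c0 + (s - e)) (c1 + e) c2 i)).card : ℕ) : ℤ)
        ≤ 2 * (R.card : ℤ) := by exact_mod_cast tot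
    linarith

lemma geo (a b o : ℝ) (s u0 e1 u2 : ℝ) (hb : b ≠ 0) (h1 : 0 < u0) (h2 : u0 ≤ s) (h3 : 0 ≤ e1)
    (h4 : e1 < s) (h5 : 0 < u2) (h6 : u2 ≤ s) (E0 : b * u0 = o) (E1 : a * e1 = o)
    (E2 : a * u2 + b * (s - u2) = o) : False := by
  wlog ho : 0 < o with H
  · have hne : o ≠ 0 := by
      rw [← E0]
      exact mul_ne_zero hb (ne_of_gt h1)
    have hneg : 0 < -o := by
      rcases lt_or_gt_of_ne hne with h | h
      · linarith
      · exact absurd h ho
    exact H (-a) (-b) (-o) s u0 e1 u2 (neg_ne_zero.mpr hb) h1 h2 h3 h4 h5 h6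
      (by linarith) (by linarith) (by linarith) hneg
  have hbpos : 0 < b := by
    by_contra h
    push Not at h
    nlinarith
  have hapos : 0 < a := by
    by_contra h
    push Not at h
    nlinarith
  have ha : o < a * s := by
    rw [← E1]
    exact mul_lt_mul_of_pos_left h4 hapos
  have hb' : o ≤ b * s := by
    rw [← E0]
    exact mul_le_mul_of_nonneg_left h2 hbpos.le
  have k1 : o * u2 < (a * s) * u2 := mul_lt_mul_of_pos_right ha h5
  have k2 : o * (s - u2) ≤ (b * s) * (s - u2) := mul_le_mul_of_nonneg_right hb' (by linarith)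
  have k3 : s * (a * u2 + b * (s - u2)) = s * o := by rw [E2]
  nlinarith

lemma sum_Lc (n K : ℕ) (w : ℕ → ℕ) : ∑ b ∈ range K, Lc n w b ≤ ∑ t ∈ range n, w t := by
  simp only [Lc, Finset.card_filter]
  rw [Finset.sum_comm]
  apply Finset.sum_le_sum
  intro t _
  rw [← Finset.card_filter]
  calc _ ≤ (range (w t)).card := by
        apply Finset.card_le_card
        intro b hb
        exact Finset.mem_range.mpr (Finset.mem_filter.mp hb).2
    _ = w t := card_range _

end W2helper57.TG
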