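import Pool.Agent.W2helper57.TG.A

open Finset

namespace W2helper57.TG

/-- the sum over a full line -/
lemma J_sum (K ji j j' : ℕ) (h1 : K ≤ ji + j + 1) (h2 : K ≤ ji + j' + 1) (N a : ℤ)
    (L L' : ℕ → ℕ) :
    ∑ p ∈ J K ji j j', (N - a - L p.1 - L' p.2)
      = ((K - ji : ℕ) : ℤ) * (N - a) - ∑ b ∈ range (K - ji), (L b : ℤ)
        - ∑ b ∈ range (K - ji), (L' b : ℤ) := by
  classical
  have hJ : J K ji j j' = (range (K - ji)).image (fun b => (b, K - ji - 1 - b)) := by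
    ext p
    simp only [J, Finset.mem_filter, Finset.mem_product, Finset.mem_range, Finset.mem_image]
    constructor
    · rintro ⟨_, h⟩
      exact ⟨p.1, by omega, Prod.ext rfl (by simp only; omega)⟩
    · rintro ⟨b, hb, rfl⟩
      simp only
      omega
  rw [hJ, Finset.sum_image (by intro x _ y _ h; exact congrArg Prod.fst h)]
  simp only
  rw [Finset.sum_sub_distrib, Finset.sum_sub_distrib, Finset.sum_const, card_range,
    Finset.sum_range_reflect (fun b => (L' b : ℤ)) (K - ji)]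
  simp

/-- triples `(u0,u1,u2)` in `[1,q]` with sum `2q+1` -/
def P3 (q : ℕ) : Finset (ℕ × ℕ × ℕ) :=
  ((Icc 1 q) ×ˢ ((Icc 1 q) ×ˢ (Icc 1 q))).filter (fun t => t.1 + t.2.1 + t.2.2 = 2 * q + 1)

lemma mem_P3 {q : ℕ} {t : ℕ × ℕ × ℕ} : t ∈ P3 q ↔
    (1 ≤ t.1 ∧ t.1 ≤ q) ∧ (1 ≤ t.2.1 ∧ t.2.1 ≤ q) ∧ (1 ≤ t.2.2 ∧ t.2.2 ≤ q) ∧
      t.1 + t.2.1 + t.2.2 = 2 * q + 1 := by
  simp only [P3, Finset.mem_filter, Finset.mem_product, Finset.mem_Icc]
  tauto

lemma fiber0 (q u : ℕ) (hu : u ∈ Icc 1 q) : ((P3 q).filter (fun t => t.1 = u)).card = u := by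
  have hu' := Finset.mem_Icc.mp hu
  have : ((P3 q).filter (fun t => t.1 = u)).card = (Icc (q + 1 - u) q).card := by
    apply Finset.card_bij' (fun t _ => t.2.1) (fun v _ => (u, v, 2 * q + 1 - u - v))
    · intro t ht
      obtain ⟨ht1, ht2⟩ := Finset.mem_filter.mp ht
      rw [mem_P3] at ht1
      rw [Finset.mem_Icc]
      omega
    · intro v hv
      rw [Finset.mem_Icc] at hv
      rw [Finset.mem_filter, mem_P3]
      refine ⟨⟨⟨?_, ?_⟩, ⟨?_, ?_⟩, ⟨?_, ?_⟩, ?_⟩, rfl⟩ <;> dsimp only <;> omega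
    · intro t ht
      obtain ⟨ht1, ht2⟩ := Finset.mem_filter.mp ht
      rw [mem_P3] at ht1
      refine Prod.ext ?_ (Prod.ext rfl ?_)
      · simp only; omega
      · simp only; omega
    · intro v hv
      rfl
  rw [this, Nat.card_Icc]
  omega

lemma fiber1 (q u : ℕ) (hu : u ∈ Icc 1 q) : ((P3 q).filter (fun t => t.2.1 = u)).card = u := by
  have hu' := Finset.mem_Icc.mp hu
  have : ((P3 q).filter (fun t => t.2.1 = u)).card = (Icc (q + 1 - u) q).card := by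
    apply Finset.card_bij' (fun t _ => t.1) (fun v _ => (v, u, 2 * q + 1 - u - v))
    · intro t ht
      obtain ⟨ht1, ht2⟩ := Finset.mem_filter.mp ht
      rw [mem_P3] at ht1
      rw [Finset.mem_Icc]
      omega
    · intro v hv
      rw [Finset.mem_Icc] at hv
      rw [Finset.mem_filter, mem_P3]
      refine ⟨⟨⟨?_, ?_⟩, ⟨?_, ?_⟩, ⟨?_, ?_⟩, ?_⟩, rfl⟩ <;> dsimp only <;> omega
    · intro t ht
      obtain ⟨ht1, ht2⟩ := Finset.mem_filter.mp ht
      rw [mem_P3] at ht1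
      refine Prod.ext rfl (Prod.ext ?_ ?_)
      · simp only; omega
      · simp only; omega
    · intro v hv
      rfl
  rw [this, Nat.card_Icc]
  omega

lemma fiber2 (q u : ℕ) (hu : u ∈ Icc 1 q) : ((P3 q).filter (fun t => t.2.2 = u)).card = u := by
  have hu' := Finset.mem_Icc.mp hu
  have : ((P3 q).filter (fun t => t.2.2 = u)).card = (Icc (q + 1 - u) q).card := by
    apply Finset.card_bij' (fun t _ => t.1) (fun v _ => (v, 2 * q + 1 - u - v, u))
    · intro t ht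
      obtain ⟨ht1, ht2⟩ := Finset.mem_filter.mp ht
      rw [mem_P3] at ht1
      rw [Finset.mem_Icc]
      omega
    · intro v hv
      rw [Finset.mem_Icc] at hv
      rw [Finset.mem_filter, mem_P3]
      refine ⟨⟨⟨?_, ?_⟩, ⟨?_, ?_⟩, ⟨?_, ?_⟩, ?_⟩, rfl⟩ <;> dsimp only <;> omega
    · intro t ht
      obtain ⟨ht1, ht2⟩ := Finset.mem_filter.mp ht
      rw [mem_P3] at ht1
      refine Prod.ext rfl (Prod.ext ?_ ?_)
      · simp only; omega
      · simp only; omega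
    · intro v hv
      rfl
  rw [this, Nat.card_Icc]
  omega

lemma sum_fib (q : ℕ) (φ : ℕ × ℕ × ℕ → ℕ) (hφ : ∀ t ∈ P3 q, φ t ∈ Icc 1 q)
    (hc : ∀ u ∈ Icc 1 q, ((P3 q).filter (fun t => φ t = u)).card = u) (G : ℕ → ℤ) :
    ∑ t ∈ P3 q, G (φ t) = ∑ u ∈ Icc 1 q, (u : ℤ) * G u := by
  rw [← Finset.sum_fiberwise_of_maps_to hφ]
  apply Finset.sum_congr rfl
  intro u hu
  rw [Finset.sum_congr rfl (g := fun _ => G u)
    (by intro t ht; rw [(Finset.mem_filter.mp ht).2]), Finset.sum_const, hc u hu]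
  simp

lemma gauss (q : ℕ) : 2 * ∑ u ∈ Icc 1 q, (u : ℤ) = q * (q + 1) := by
  induction q with
  | zero => simp
  | succ q ih =>
    rw [Finset.sum_Icc_succ_top (by omega), mul_add, ih]
    push_cast
    ring

lemma gauss2 (q : ℕ) : 6 * ∑ u ∈ Icc 1 q, (u : ℤ) * u = q * (q + 1) * (2 * q + 1) := by
  induction q with
  | zero => simp
  | succ q ih =>
    rw [Finset.sum_Icc_succ_top (by omega), mul_add, ih]
    push_cast
    ring

lemma cardP3 (q : ℕ) : 2 * ((P3 q).card : ℤ) = q * (q + 1) := by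
  have h := sum_fib q (fun t => t.1)
    (by intro t ht; rw [mem_P3] at ht; rw [Finset.mem_Icc]; exact ht.1) (fiber0 q) (fun _ => 1)
  simp only [Finset.sum_const, mul_one] at h
  have h2 := gauss q
  rw [← h] at h2
  simpa using h2

lemma sum_shift (q : ℕ) (g : ℕ → ℤ) :
    ∑ u ∈ Icc 1 q, g u = ∑ x ∈ range q, g (x + 1) := by
  induction q with
  | zero => simp
  | succ q ih =>
    rw [Finset.sum_Icc_succ_top (by omega), Finset.sum_range_succ, ih]

/-- coefficient identity for one direction -/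
lemma coef (q : ℕ) (L : ℕ → ℤ) :
    ∑ u ∈ Icc 1 q, (u : ℤ) * ((2 * q + 1 - u) * L (q + u)
        + 2 * ∑ b ∈ range (2 * q + 1 - u), L b)
      = q * (q + 1) * ∑ b ∈ range (2 * q + 1), L b := by
  have h1 : ∑ u ∈ Icc 1 q, (u : ℤ) * (2 * ∑ b ∈ range (2 * q + 1 - u), L b)
      = ∑ b ∈ range (2 * q + 1), (2 * ∑ u ∈ Icc 1 (min q (2 * q - b)), (u : ℤ)) * L b := by
    have e1 : ∀ u ∈ Icc 1 q, (u : ℤ) * (2 * ∑ b ∈ range (2 * q + 1 - u), L b)
        = ∑ b ∈ range (2 * q + 1), (if b + u ≤ 2 * q then 2 * (u : ℤ) * L b else 0) := by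
      intro u hu
      have hu' := Finset.mem_Icc.mp hu
      rw [← Finset.sum_filter]
      have : (range (2 * q + 1)).filter (fun b => b + u ≤ 2 * q) = range (2 * q + 1 - u) := by
        ext b
        simp only [Finset.mem_filter, Finset.mem_range]
        omega
      rw [this, ← Finset.mul_sum]
      ring
    rw [Finset.sum_congr rfl e1, Finset.sum_comm]
    apply Finset.sum_congr rfl
    intro b hb
    have hb' := Finset.mem_range.mp hb
    rw [← Finset.sum_filter]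
    have : (Icc 1 q).filter (fun u => b + u ≤ 2 * q) = Icc 1 (min q (2 * q - b)) := by
      ext u
      simp only [Finset.mem_filter, Finset.mem_Icc]
      omega
    rw [this, ← Finset.sum_mul, ← Finset.mul_sum]
  have h2 : ∑ b ∈ range (2 * q + 1), (2 * ∑ u ∈ Icc 1 (min q (2 * q - b)), (u : ℤ)) * L b
      = ∑ b ∈ range (q + 1), ((q : ℤ) * (q + 1)) * L b
        + ∑ u ∈ Icc 1 q, ((q : ℤ) - u) * (q - u + 1) * L (q + u) := by
    have hr : 2 * q + 1 = (q + 1) + q := by ring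
    rw [hr, Finset.sum_range_add, sum_shift]
    congr 1
    · apply Finset.sum_congr rfl
      intro b hb
      have hb' := Finset.mem_range.mp hb
      rw [show min q (2 * q - b) = q by omega, gauss]
    · apply Finset.sum_congr rfl
      intro x hx
      have hx' := Finset.mem_range.mp hx
      rw [show min q (2 * q - (q + 1 + x)) = q - (x + 1) by omega, gauss,
        show q + 1 + x = q + (x + 1) by ring]
      have : ((q - (x + 1) : ℕ) : ℤ) = (q : ℤ) - (x + 1 : ℕ) := by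
        rw [Nat.cast_sub (by omega)]
      rw [this]
  have h3 : ∑ b ∈ range (2 * q + 1), L b
      = ∑ b ∈ range (q + 1), L b + ∑ u ∈ Icc 1 q, L (q + u) := by
    have hr : 2 * q + 1 = (q + 1) + q := by ring
    rw [hr, Finset.sum_range_add, sum_shift]
    congr 1
    apply Finset.sum_congr rfl
    intro x _
    rw [show q + 1 + x = q + (x + 1) by ring]
  have h0 : ∑ u ∈ Icc 1 q, (u : ℤ) * ((2 * q + 1 - u) * L (q + u)
        + 2 * ∑ b ∈ range (2 * q + 1 - u), L b)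
      = ∑ u ∈ Icc 1 q, (u : ℤ) * ((2 * q + 1 - u) * L (q + u))
        + ∑ u ∈ Icc 1 q, (u : ℤ) * (2 * ∑ b ∈ range (2 * q + 1 - u), L b) := by
    rw [← Finset.sum_add_distrib]
    apply Finset.sum_congr rfl
    intro u _
    ring
  have h4 : ∑ u ∈ Icc 1 q, (u : ℤ) * ((2 * q + 1 - u) * L (q + u))
      + ∑ u ∈ Icc 1 q, ((q : ℤ) - u) * (q - u + 1) * L (q + u)
      = q * (q + 1) * ∑ u ∈ Icc 1 q, L (q + u) := by
    rw [← Finset.sum_add_distrib, Finset.mul_sum]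
    apply Finset.sum_congr rfl
    intro u _
    ring
  rw [h0, h1, h2, h3, ← Finset.mul_sum]
  linear_combination h4

/-- The weighted sum of the triangle inequalities. -/
lemma core (q n m r : ℕ) (hq : 1 ≤ q) (L0 L1 L2 : ℕ → ℕ)
    (htri : ∀ j0 j1 j2, ∑ p ∈ J (3 * q + 1) j0 j1 j2, ((n : ℤ) - 1 - L0 j0 - L1 p.1 - L2 p.2)
      + ∑ p ∈ J (3 * q + 1) j1 j2 j0, ((n : ℤ) - 1 - L1 j1 - L2 p.1 - L0 p.2)
      + ∑ p ∈ J (3 * q + 1) j2 j0 j1, ((n : ℤ) - 1 - L2 j2 - L0 p.1 - L1 p.2) ≤ 2 * (r : ℤ))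
    (hm : ∑ b ∈ range (2 * q + 1), L0 b + ∑ b ∈ range (2 * q + 1), L1 b
      + ∑ b ∈ range (2 * q + 1), L2 b + r ≤ m) :
    (2 * (q : ℤ) + 1) * ((n : ℤ) - 1) ≤ m := by
  -- sum over `P3`
  set Λ : (ℕ → ℕ) → (ℕ → ℕ) → (ℕ → ℕ) → ℕ → ℤ := fun A B C u =>
    ((2 * q + 1 - u : ℕ) : ℤ) * ((n : ℤ) - 1 - A (q + u))
      - ∑ b ∈ range (2 * q + 1 - u), (B b : ℤ) - ∑ b ∈ range (2 * q + 1 - u), (C b : ℤ) with hΛ
  have hone : ∀ t ∈ P3 q, Λ L0 L1 L2 t.1 + Λ L1 L2 L0 t.2.1 + Λ L2 L0 L1 t.2.2 ≤ 2 * (r : ℤ) := by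
    intro t ht
    rw [mem_P3] at ht
    have h := htri (q + t.1) (q + t.2.1) (q + t.2.2)
    rw [J_sum _ _ _ _ (by omega) (by omega), J_sum _ _ _ _ (by omega) (by omega),
      J_sum _ _ _ _ (by omega) (by omega),
      show 3 * q + 1 - (q + t.1) = 2 * q + 1 - t.1 by omega,
      show 3 * q + 1 - (q + t.2.1) = 2 * q + 1 - t.2.1 by omega,
      show 3 * q + 1 - (q + t.2.2) = 2 * q + 1 - t.2.2 by omega] at h
    exact h
  have hsum := Finset.sum_le_sum hone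
  rw [Finset.sum_const, Finset.sum_add_distrib, Finset.sum_add_distrib,
    sum_fib q (fun t => t.1)
      (by intro t ht; rw [mem_P3] at ht; rw [Finset.mem_Icc]; exact ht.1) (fiber0 q)
      (Λ L0 L1 L2),
    sum_fib q (fun t => t.2.1)
      (by intro t ht; rw [mem_P3] at ht; rw [Finset.mem_Icc]; exact ht.2.1) (fiber1 q)
      (Λ L1 L2 L0),
    sum_fib q (fun t => t.2.2)
      (by intro t ht; rw [mem_P3] at ht; rw [Finset.mem_Icc]; exact ht.2.2.1) (fiber2 q)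
      (Λ L2 L0 L1)] at hsum
  have hcard := cardP3 q
  -- evaluate
  have hev : ∑ u ∈ Icc 1 q, (u : ℤ) * Λ L0 L1 L2 u + ∑ u ∈ Icc 1 q, (u : ℤ) * Λ L1 L2 L0 u
      + ∑ u ∈ Icc 1 q, (u : ℤ) * Λ L2 L0 L1 u
      = 3 * ((n : ℤ) - 1) * ∑ u ∈ Icc 1 q, (u : ℤ) * (2 * q + 1 - u)
        - q * (q + 1) * (∑ b ∈ range (2 * q + 1), (L0 b : ℤ) + ∑ b ∈ range (2 * q + 1), (L1 b : ℤ)
          + ∑ b ∈ range (2 * q + 1), (L2 b : ℤ)) := by
    rw [mul_add, mul_add, ← coef q (fun b => (L0 b : ℤ)), ← coef q (fun b => (L1 b : ℤ)),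
      ← coef q (fun b => (L2 b : ℤ)), Finset.mul_sum, ← Finset.sum_add_distrib,
      ← Finset.sum_add_distrib, ← Finset.sum_add_distrib, ← Finset.sum_add_distrib,
      ← Finset.sum_sub_distrib]
    apply Finset.sum_congr rfl
    intro u hu
    have hu' := Finset.mem_Icc.mp hu
    have hc : ((2 * q + 1 - u : ℕ) : ℤ) = 2 * (q : ℤ) + 1 - u := by
      rw [Nat.cast_sub (by omega)]
      push_cast
      ring
    simp only [hΛ, hc]
    ring
  have hg : 6 * ∑ u ∈ Icc 1 q, (u : ℤ) * (2 * q + 1 - u)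
      = 2 * (q * (q + 1) * (2 * q + 1)) := by
    have e : ∑ u ∈ Icc 1 q, (u : ℤ) * (2 * q + 1 - u)
        = (2 * q + 1) * ∑ u ∈ Icc 1 q, (u : ℤ) - ∑ u ∈ Icc 1 q, (u : ℤ) * u := by
      rw [Finset.mul_sum, ← Finset.sum_sub_distrib]
      apply Finset.sum_congr rfl
      intro u _
      ring
    have g1 := gauss q
    have g2 := gauss2 q
    rw [e]
    linear_combination (3 * (2 * (q : ℤ) + 1)) * g1 - g2
  rw [hev, nsmul_eq_mul] at hsum
  have hmZ : (∑ b ∈ range (2 * q + 1), (L0 b : ℤ)) + ∑ b ∈ range (2 * q + 1), (L1 b : ℤ)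
      + ∑ b ∈ range (2 * q + 1), (L2 b : ℤ) + r ≤ m := by
    exact_mod_cast hm
  have hqpos : 0 < (q : ℤ) * (q + 1) := by positivity
  have key : (q : ℤ) * (q + 1) * ((2 * (q : ℤ) + 1) * ((n : ℤ) - 1)) ≤ (q : ℤ) * (q + 1) * m := by
    have k1 : (q : ℤ) * (q + 1) * ((∑ b ∈ range (2 * q + 1), (L0 b : ℤ))
        + ∑ b ∈ range (2 * q + 1), (L1 b : ℤ)
        + ∑ b ∈ range (2 * q + 1), (L2 b : ℤ) + r) ≤ (q : ℤ) * (q + 1) * m :=
      mul_le_mul_of_nonneg_left hmZ hqpos.le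
    have k2 : 3 * ((n : ℤ) - 1) * ∑ u ∈ Icc 1 q, (u : ℤ) * (2 * q + 1 - u)
        = (q : ℤ) * (q + 1) * ((2 * (q : ℤ) + 1) * ((n : ℤ) - 1)) := by
      have hg' : 3 * ∑ u ∈ Icc 1 q, (u : ℤ) * (2 * q + 1 - u)
          = q * (q + 1) * (2 * q + 1) := by linarith
      linear_combination ((n : ℤ) - 1) * hg'
    have k3 : ((P3 q).card : ℤ) * (2 * (r : ℤ)) = (q : ℤ) * (q + 1) * r := by
      linear_combination (r : ℤ) * hcard
    rw [k2, k3] at hsum
    linarith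
  exact le_of_mul_le_mul_left key hqpos

end W2helper57.TG
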