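import Pool.Agent.W2helper57.TG.B

open Finset

namespace W2helper57.TG

/-- the sum over the line `β = s + u` -/
def Lam (K n s : ℕ) (A B C : ℕ → ℕ) (u : ℕ) : ℤ :=
  ((K - (s + u) : ℕ) : ℤ) * ((n : ℤ) - 1 - A (s + u))
    - ∑ b ∈ range (K - (s + u)), (B b : ℤ) - ∑ b ∈ range (K - (s + u)), (C b : ℤ)

lemma fam (K n r p s : ℕ) (hK : K ≤ 2 * s + p + 2) (L0 L1 L2 : ℕ → ℕ)
    (htri : ∀ j0 j1 j2, ∑ p ∈ J K j0 j1 j2, ((n : ℤ) - 1 - L0 j0 - L1 p.1 - L2 p.2)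
      + ∑ p ∈ J K j1 j2 j0, ((n : ℤ) - 1 - L1 j1 - L2 p.1 - L0 p.2)
      + ∑ p ∈ J K j2 j0 j1, ((n : ℤ) - 1 - L2 j2 - L0 p.1 - L1 p.2) ≤ 2 * (r : ℤ)) :
    ∑ u ∈ Icc 1 p, (u : ℤ) * (Lam K n s L0 L1 L2 u + Lam K n s L1 L2 L0 u + Lam K n s L2 L0 L1 u)
      ≤ p * (p + 1) * r := by
  have hone : ∀ t ∈ P3 p, Lam K n s L0 L1 L2 t.1 + Lam K n s L1 L2 L0 t.2.1
      + Lam K n s L2 L0 L1 t.2.2 ≤ 2 * (r : ℤ) := by
    intro t ht
    rw [mem_P3] at ht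
    have h := htri (s + t.1) (s + t.2.1) (s + t.2.2)
    rw [J_sum _ _ _ _ (by omega) (by omega), J_sum _ _ _ _ (by omega) (by omega),
      J_sum _ _ _ _ (by omega) (by omega)] at h
    exact h
  have hsum := Finset.sum_le_sum hone
  rw [Finset.sum_const, Finset.sum_add_distrib, Finset.sum_add_distrib,
    sum_fib p (fun t => t.1)
      (by intro t ht; rw [mem_P3] at ht; rw [Finset.mem_Icc]; exact ht.1) (fiber0 p)
      (Lam K n s L0 L1 L2),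
    sum_fib p (fun t => t.2.1)
      (by intro t ht; rw [mem_P3] at ht; rw [Finset.mem_Icc]; exact ht.2.1) (fiber1 p)
      (Lam K n s L1 L2 L0),
    sum_fib p (fun t => t.2.2)
      (by intro t ht; rw [mem_P3] at ht; rw [Finset.mem_Icc]; exact ht.2.2.1) (fiber2 p)
      (Lam K n s L2 L0 L1)] at hsum
  have hcard := cardP3 p
  rw [nsmul_eq_mul] at hsum
  have e : ∑ u ∈ Icc 1 p, (u : ℤ) * (Lam K n s L0 L1 L2 u + Lam K n s L1 L2 L0 u
      + Lam K n s L2 L0 L1 u) = ∑ u ∈ Icc 1 p, (u : ℤ) * Lam K n s L0 L1 L2 u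
      + ∑ u ∈ Icc 1 p, (u : ℤ) * Lam K n s L1 L2 L0 u
      + ∑ u ∈ Icc 1 p, (u : ℤ) * Lam K n s L2 L0 L1 u := by
    rw [← Finset.sum_add_distrib, ← Finset.sum_add_distrib]
    apply Finset.sum_congr rfl
    intro u _
    ring
  rw [e]
  refine le_trans hsum (le_of_eq ?_)
  linear_combination (r : ℤ) * hcard

lemma shift_one (q : ℕ) (G : ℕ → ℤ) :
    ∑ v ∈ Icc 1 (q - 1), (v : ℤ) * G (v + 1) = ∑ u ∈ Icc 1 q, ((u : ℤ) - 1) * G u := by
  cases q with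
  | zero => simp
  | succ q =>
    rw [Nat.add_sub_cancel, sum_shift q, sum_shift (q + 1), Finset.sum_range_succ']
    simp

/-- exchange of sums -/
lemma exch (q s : ℕ) (W L : ℕ → ℤ) :
    ∑ u ∈ Icc 1 q, W u * (2 * ∑ b ∈ range (s + q + 2 - u), L b)
      = (2 * ∑ u ∈ Icc 1 q, W u) * ∑ b ∈ range (s + 1), L b
        + ∑ v ∈ Icc 1 q, (2 * ∑ u ∈ Icc 1 (q + 1 - v), W u) * L (s + v) := by
  have e1 : ∀ u ∈ Icc 1 q, W u * (2 * ∑ b ∈ range (s + q + 2 - u), L b)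
      = ∑ b ∈ range (s + 1 + q), (if b + u ≤ s + q + 1 then 2 * W u * L b else 0) := by
    intro u hu
    have hu' := Finset.mem_Icc.mp hu
    rw [← Finset.sum_filter]
    have : (range (s + 1 + q)).filter (fun b => b + u ≤ s + q + 1) = range (s + q + 2 - u) := by
      ext b
      simp only [Finset.mem_filter, Finset.mem_range]
      omega
    rw [this, ← Finset.mul_sum]
    ring
  rw [Finset.sum_congr rfl e1, Finset.sum_comm, Finset.sum_range_add]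
  congr 1
  · rw [Finset.mul_sum]
    apply Finset.sum_congr rfl
    intro b hb
    have hb' := Finset.mem_range.mp hb
    rw [← Finset.sum_filter]
    have : (Icc 1 q).filter (fun u => b + u ≤ s + q + 1) = Icc 1 q := by
      ext u
      simp only [Finset.mem_filter, Finset.mem_Icc]
      omega
    rw [this, ← Finset.sum_mul, ← Finset.mul_sum]
  · rw [sum_shift]
    apply Finset.sum_congr rfl
    intro x hx
    have hx' := Finset.mem_range.mp hx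
    rw [← Finset.sum_filter]
    have : (Icc 1 q).filter (fun u => s + 1 + x + u ≤ s + q + 1) = Icc 1 (q + 1 - (x + 1)) := by
      ext u
      simp only [Finset.mem_filter, Finset.mem_Icc]
      omega
    rw [this, ← Finset.sum_mul, ← Finset.mul_sum, show s + 1 + x = s + (x + 1) by ring]

lemma sumW (q : ℕ) (c : ℤ) : 2 * ∑ u ∈ Icc 1 q, (3 * (u : ℤ) - c) = q * (3 * q + 3 - 2 * c) := by
  induction q with
  | zero => simp
  | succ q ih =>
    rw [Finset.sum_Icc_succ_top (by omega), mul_add, ih]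
    push_cast
    ring

lemma sumWu (q : ℕ) (c a : ℤ) : 2 * ∑ u ∈ Icc 1 q, (3 * (u : ℤ) - c) * (a - u)
    = q * (3 * q + 3 - 2 * c) * a - q * (q + 1) * (2 * q + 1) + c * (q * (q + 1)) := by
  induction q with
  | zero => simp
  | succ q ih =>
    rw [Finset.sum_Icc_succ_top (by omega), mul_add, ih]
    push_cast
    ring

/-- coefficient identity: `s = q` (c = 1) or `s = q - 1` (c = 2) -/
lemma coef2 (q s : ℕ) (c : ℤ) (_hs : (s : ℤ) = q + 1 - c) (L : ℕ → ℤ) :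
    ∑ u ∈ Icc 1 q, (3 * (u : ℤ) - c) * (((s : ℤ) + q + 2 - u) * L (s + u)
        + 2 * ∑ b ∈ range (s + q + 2 - u), L b)
      + (((2 - c) * (q + 1) + q) * ((s + 1) * L (s + q + 1) + 2 * ∑ b ∈ range (s + 1), L b))
      = (q * (3 * q + 3 - 2 * c) + 2 * ((2 - c) * (q + 1) + q)) * ∑ b ∈ range (s + q + 1), L b
        + ((2 - c) * (q + 1) + q) * (s + 1) * L (s + q + 1)
        + (q * (3 * q + 3 - 2 * c) + 2 * ((2 - c) * (q + 1) + q)) * 0
        + ∑ v ∈ Icc 1 q, ((3 * (v : ℤ) - c) * ((s : ℤ) + q + 2 - v)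
          + ((q : ℤ) + 1 - v) * (3 * (q + 1 - v) + 3 - 2 * c)
          - (q * (3 * q + 3 - 2 * c) + 2 * ((2 - c) * (q + 1) + q))) * L (s + v) := by
  have h3 : ∑ b ∈ range (s + q + 1), L b
      = ∑ b ∈ range (s + 1), L b + ∑ u ∈ Icc 1 q, L (s + u) := by
    have hr : s + q + 1 = (s + 1) + q := by ring
    rw [hr, Finset.sum_range_add, sum_shift]
    congr 1
    apply Finset.sum_congr rfl
    intro x _
    rw [show s + 1 + x = s + (x + 1) by ring]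
  have h0 : ∑ u ∈ Icc 1 q, (3 * (u : ℤ) - c) * (((s : ℤ) + q + 2 - u) * L (s + u)
        + 2 * ∑ b ∈ range (s + q + 2 - u), L b)
      = ∑ u ∈ Icc 1 q, (3 * (u : ℤ) - c) * (((s : ℤ) + q + 2 - u) * L (s + u))
        + ∑ u ∈ Icc 1 q, (3 * (u : ℤ) - c) * (2 * ∑ b ∈ range (s + q + 2 - u), L b) := by
    rw [← Finset.sum_add_distrib]
    apply Finset.sum_congr rfl
    intro u _
    ring
  have h1 := exch q s (fun u => 3 * (u : ℤ) - c) L
  have h2 := sumW q c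
  have h4 : ∑ v ∈ Icc 1 q, (2 * ∑ u ∈ Icc 1 (q + 1 - v), (3 * (u : ℤ) - c)) * L (s + v)
      = ∑ v ∈ Icc 1 q, ((q : ℤ) + 1 - v) * (3 * (q + 1 - v) + 3 - 2 * c) * L (s + v) := by
    apply Finset.sum_congr rfl
    intro v hv
    have hv' := Finset.mem_Icc.mp hv
    rw [sumW, Nat.cast_sub (by omega)]
    push_cast
    ring
  have h5 : ∑ v ∈ Icc 1 q, ((3 * (v : ℤ) - c) * ((s : ℤ) + q + 2 - v)
          + ((q : ℤ) + 1 - v) * (3 * (q + 1 - v) + 3 - 2 * c)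
          - (q * (3 * q + 3 - 2 * c) + 2 * ((2 - c) * (q + 1) + q))) * L (s + v)
      = ∑ u ∈ Icc 1 q, (3 * (u : ℤ) - c) * (((s : ℤ) + q + 2 - u) * L (s + u))
        + ∑ v ∈ Icc 1 q, ((q : ℤ) + 1 - v) * (3 * (q + 1 - v) + 3 - 2 * c) * L (s + v)
        - (q * (3 * q + 3 - 2 * c) + 2 * ((2 - c) * (q + 1) + q)) * ∑ u ∈ Icc 1 q, L (s + u) := by
    rw [Finset.mul_sum, ← Finset.sum_add_distrib, ← Finset.sum_sub_distrib]
    apply Finset.sum_congr rfl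
    intro v _
    ring
  rw [h0, h1, h2, h4, h5, h3]
  ring

lemma Tt (q s : ℤ) (c : ℤ) (hq : 1 ≤ q) (hc : c = 1 ∨ c = 2) (hs : s = q + 1 - c) :
    ((2 - c) * (q + 1) + q) * (s + 1)
      ≤ q * (3 * q + 3 - 2 * c) + 2 * ((2 - c) * (q + 1) + q) := by
  subst hs
  rcases hc with h | h
  · subst h
    nlinarith
  · subst h
    nlinarith

set_option maxHeartbeats 1000000 in
lemma core2 (q s n m r K : ℕ) (c : ℤ) (hq : 1 ≤ q) (hc : c = 1 ∨ c = 2)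
    (hs : (s : ℤ) = q + 1 - c) (hK : K = 2 * s + q + 2) (L0 L1 L2 : ℕ → ℕ)
    (htri : ∀ j0 j1 j2, ∑ p ∈ J K j0 j1 j2, ((n : ℤ) - 1 - L0 j0 - L1 p.1 - L2 p.2)
      + ∑ p ∈ J K j1 j2 j0, ((n : ℤ) - 1 - L1 j1 - L2 p.1 - L0 p.2)
      + ∑ p ∈ J K j2 j0 j1, ((n : ℤ) - 1 - L2 j2 - L0 p.1 - L1 p.2) ≤ 2 * (r : ℤ))
    (hm : ∑ b ∈ range (s + q + 2), L0 b + ∑ b ∈ range (s + q + 2), L1 b
      + ∑ b ∈ range (s + q + 2), L2 b + r ≤ m) :
    3 * ((n : ℤ) - 1) * (q * (3 * q + 3 - 2 * c) * (s + q + 2) - q * (q + 1) * (2 * q + 1)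
        + c * (q * (q + 1)) + 2 * (((2 - c) * (q + 1) + q) * (s + 1)))
      ≤ 2 * (q * (3 * q + 3 - 2 * c) + 2 * ((2 - c) * (q + 1) + q)) * m := by
  have hc0 : 0 ≤ c := by rcases hc with h | h <;> omega
  have hc2 : 0 ≤ 2 - c := by rcases hc with h | h <;> omega
  have hcc : (c - 1) * (c - 2) = 0 := by rcases hc with h | h <;> simp [h]
  set t : ℤ := (2 - c) * (q + 1) + q with ht
  have ht0 : 0 ≤ t := by positivity
  set Γ : ℕ → ℤ := fun u => Lam K n s L0 L1 L2 u + Lam K n s L1 L2 L0 u + Lam K n s L2 L0 L1 u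
    with hΓ
  have fA := fam K n r q s (by omega) L0 L1 L2 htri
  have fB := fam K n r (q + 1) s (by omega) L0 L1 L2 htri
  have fC := fam K n r (q - 1) (s + 1) (by omega) L0 L1 L2 htri
  have eC : ∑ u ∈ Icc 1 (q - 1), (u : ℤ) * (Lam K n (s + 1) L0 L1 L2 u
      + Lam K n (s + 1) L1 L2 L0 u + Lam K n (s + 1) L2 L0 L1 u)
      = ∑ u ∈ Icc 1 q, ((u : ℤ) - 1) * Γ u := by
    rw [← shift_one q Γ]
    apply Finset.sum_congr rfl
    intro u _
    simp only [hΓ, Lam]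
    rw [show s + 1 + u = s + (u + 1) by ring]
  rw [eC] at fC
  change ∑ u ∈ Icc 1 q, (u : ℤ) * Γ u ≤ _ at fA
  change ∑ u ∈ Icc 1 (q + 1), (u : ℤ) * Γ u ≤ _ at fB
  rw [Finset.sum_Icc_succ_top (by omega)] at fB
  have hq1 : ((q - 1 : ℕ) : ℤ) = (q : ℤ) - 1 := by rw [Nat.cast_sub hq]; simp
  rw [hq1] at fC
  push_cast at fB
  have hqpos : (0 : ℤ) < (q : ℤ) + 1 := by positivity
  have comb : ∑ u ∈ Icc 1 q, (3 * (u : ℤ) - c) * Γ u + t * Γ (q + 1)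
      ≤ (q * (3 * q + 3 - 2 * c) + 2 * t) * r := by
    have e : ((q : ℤ) + 1) * (∑ u ∈ Icc 1 q, (3 * (u : ℤ) - c) * Γ u + t * Γ (q + 1))
        = ∑ u ∈ Icc 1 q, (u : ℤ) * Γ u
          + t * (∑ u ∈ Icc 1 q, (u : ℤ) * Γ u + ((q : ℤ) + 1) * Γ (q + 1))
          + c * (q + 1) * ∑ u ∈ Icc 1 q, ((u : ℤ) - 1) * Γ u := by
      have e2 : ((q : ℤ) + 1) * ∑ u ∈ Icc 1 q, (3 * (u : ℤ) - c) * Γ u
          = ∑ u ∈ Icc 1 q, (u : ℤ) * Γ u + t * ∑ u ∈ Icc 1 q, (u : ℤ) * Γ u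
          + c * (q + 1) * ∑ u ∈ Icc 1 q, ((u : ℤ) - 1) * Γ u := by
        rw [Finset.mul_sum, Finset.mul_sum, Finset.mul_sum, ← Finset.sum_add_distrib,
          ← Finset.sum_add_distrib]
        apply Finset.sum_congr rfl
        intro u _
        rw [ht]
        ring
      linear_combination e2
    have k2 := mul_le_mul_of_nonneg_left fB ht0
    have k3 := mul_le_mul_of_nonneg_left fC (mul_nonneg hc0 hqpos.le)
    have k4 : ((q : ℤ) + 1) * (∑ u ∈ Icc 1 q, (3 * (u : ℤ) - c) * Γ u + t * Γ (q + 1))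
        ≤ ((q : ℤ) + 1) * ((q * (3 * q + 3 - 2 * c) + 2 * t) * r) := by
      rw [e]
      have k5 : ((q : ℤ) + 1) * ((q * (3 * q + 3 - 2 * c) + 2 * t) * r)
          = q * (q + 1) * r + t * (((q : ℤ) + 1) * (q + 1 + 1) * r)
            + c * (q + 1) * (((q : ℤ) - 1) * (q - 1 + 1) * r) := by
        rw [ht]
        ring
      rw [k5]
      linarith
    exact le_of_mul_le_mul_left k4 hqpos
  -- evaluate
  have hL : ∀ u ∈ Icc 1 (q + 1), Γ u = 3 * ((n : ℤ) - 1) * ((s : ℤ) + q + 2 - u)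
      - ((((s : ℤ) + q + 2 - u) * (L0 (s + u) : ℤ) + 2 * ∑ b ∈ range (s + q + 2 - u), (L0 b : ℤ))
      + (((s : ℤ) + q + 2 - u) * (L1 (s + u) : ℤ) + 2 * ∑ b ∈ range (s + q + 2 - u), (L1 b : ℤ))
      + (((s : ℤ) + q + 2 - u) * (L2 (s + u) : ℤ)
        + 2 * ∑ b ∈ range (s + q + 2 - u), (L2 b : ℤ))) := by
    intro u hu
    have hu' := Finset.mem_Icc.mp hu
    have e : K - (s + u) = s + q + 2 - u := by omega
    have e' : ((s + q + 2 - u : ℕ) : ℤ) = (s : ℤ) + q + 2 - u := by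
      rw [Nat.cast_sub (by omega)]
      push_cast
      ring
    simp only [hΓ, Lam, e, e']
    ring
  have hev : ∑ u ∈ Icc 1 q, (3 * (u : ℤ) - c) * Γ u
      = 3 * ((n : ℤ) - 1) * ∑ u ∈ Icc 1 q, (3 * (u : ℤ) - c) * (((s : ℤ) + q + 2) - u)
        - (∑ u ∈ Icc 1 q, (3 * (u : ℤ) - c) * (((s : ℤ) + q + 2 - u) * (L0 (s + u) : ℤ)
            + 2 * ∑ b ∈ range (s + q + 2 - u), (L0 b : ℤ))
          + ∑ u ∈ Icc 1 q, (3 * (u : ℤ) - c) * (((s : ℤ) + q + 2 - u) * (L1 (s + u) : ℤ)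
            + 2 * ∑ b ∈ range (s + q + 2 - u), (L1 b : ℤ))
          + ∑ u ∈ Icc 1 q, (3 * (u : ℤ) - c) * (((s : ℤ) + q + 2 - u) * (L2 (s + u) : ℤ)
            + 2 * ∑ b ∈ range (s + q + 2 - u), (L2 b : ℤ))) := by
    rw [Finset.mul_sum, ← Finset.sum_add_distrib, ← Finset.sum_add_distrib,
      ← Finset.sum_sub_distrib]
    apply Finset.sum_congr rfl
    intro u hu
    have hu' := Finset.mem_Icc.mp hu
    rw [hL u (Finset.mem_Icc.mpr ⟨hu'.1, by omega⟩)]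
    ring
  have htop := hL (q + 1) (Finset.mem_Icc.mpr ⟨by omega, le_rfl⟩)
  rw [show s + q + 2 - (q + 1) = s + 1 by omega, ← add_assoc s q 1] at htop
  push_cast at htop
  have z : ∀ L : ℕ → ℤ, ∑ v ∈ Icc 1 q, ((3 * (v : ℤ) - c) * ((s : ℤ) + q + 2 - v)
          + ((q : ℤ) + 1 - v) * (3 * (q + 1 - v) + 3 - 2 * c)
          - (q * (3 * q + 3 - 2 * c) + 2 * ((2 - c) * (q + 1) + q))) * L (s + v) = 0 := by
    intro L
    apply Finset.sum_eq_zero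
    intro v _
    have : ((3 * (v : ℤ) - c) * ((s : ℤ) + q + 2 - v)
          + ((q : ℤ) + 1 - v) * (3 * (q + 1 - v) + 3 - 2 * c)
          - (q * (3 * q + 3 - 2 * c) + 2 * ((2 - c) * (q + 1) + q))) = 0 := by
      rw [hs]
      linear_combination hcc
    rw [this, zero_mul]
  have c0 := coef2 q s c hs (fun b => (L0 b : ℤ))
  have c1 := coef2 q s c hs (fun b => (L1 b : ℤ))
  have c2 := coef2 q s c hs (fun b => (L2 b : ℤ))
  have z0 := z (fun b => (L0 b : ℤ))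
  have z1 := z (fun b => (L1 b : ℤ))
  have z2 := z (fun b => (L2 b : ℤ))
  beta_reduce at z0 z1 z2 c0 c1 c2
  rw [z0] at c0
  rw [z1] at c1
  rw [z2] at c2
  rw [← ht] at c0 c1 c2
  have hW := sumWu q c ((s : ℤ) + q + 2)
  set Tot : ℤ := q * (3 * q + 3 - 2 * c) + 2 * t with hTot
  have hTt : t * (s + 1) ≤ Tot := Tt q s c (by exact_mod_cast hq) hc hs
  have hTot0 : 0 ≤ Tot := le_trans (by positivity) hTt
  have hmZ : (∑ b ∈ range (s + q + 2), (L0 b : ℤ)) + ∑ b ∈ range (s + q + 2), (L1 b : ℤ)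
      + ∑ b ∈ range (s + q + 2), (L2 b : ℤ) + r ≤ m := by
    exact_mod_cast hm
  have hmT := mul_le_mul_of_nonneg_left hmZ hTot0
  rw [Finset.sum_range_succ (fun b => (L0 b : ℤ)) (s + q + 1),
    Finset.sum_range_succ (fun b => (L1 b : ℤ)) (s + q + 1),
    Finset.sum_range_succ (fun b => (L2 b : ℤ)) (s + q + 1)] at hmT
  have l0 := mul_le_mul_of_nonneg_right hTt (Int.natCast_nonneg (L0 (s + q + 1)))
  have l1 := mul_le_mul_of_nonneg_right hTt (Int.natCast_nonneg (L1 (s + q + 1)))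
  have l2 := mul_le_mul_of_nonneg_right hTt (Int.natCast_nonneg (L2 (s + q + 1)))
  rw [hev, htop] at comb
  have hW2 : 3 * ((n : ℤ) - 1) * (2 * ∑ u ∈ Icc 1 q, (3 * (u : ℤ) - c) * (((s : ℤ) + q + 2) - u))
      = 3 * ((n : ℤ) - 1) * (q * (3 * q + 3 - 2 * c) * (s + q + 2) - q * (q + 1) * (2 * q + 1)
        + c * (q * (q + 1))) := by rw [hW]
  clear hev htop hL z z0 z1 z2 fA fB fC eC hm htri hmZ hW
  generalize (∑ u ∈ Icc 1 q, (3 * (u : ℤ) - c) * (((s : ℤ) + q + 2) - u)) = W at *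
  linarith

end W2helper57.TG
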